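import Mathlib
import Pool.Agent.H14.TensorRank3

set_option autoImplicit false

namespace Pool.Agent.Results.MP_a9d09b_co.NoTensorize

open Finset Pool.Agent.H14.TensorRank

section
variable {p : ℕ} [Fact p.Prime] {J : Type} [Fintype J] [DecidableEq J]

theorem one_lt_p : (1 : ℝ) < p := by exact_mod_cast (Fact.out : p.Prime).one_lt

theorem bias_pos (A : (Fin 4 → J) → ZMod p) : 0 < bias A := by
  rw [bias_eq]
  have := one_lt_p (p := p)
  have h : (0 : ℝ) < Zc A := by exact_mod_cast Zc_pos A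
  positivity

theorem arank_le (o : J) (A : (Fin 4 → J) → ZMod p) (r : ℕ) (h : HasPR A r) :
    arank A ≤ 3 * r := by
  have h1 := Zc_lower o A r h
  rw [ZMod.card] at h1
  have hp := one_lt_p (p := p)
  have h2 : ((p : ℝ) ^ Fintype.card J) ^ 3 ≤ Zc A * ((p : ℝ) ^ r) ^ 3 := by exact_mod_cast h1
  unfold arank
  rw [neg_le, Real.le_logb_iff_rpow_le hp (bias_pos A), bias_eq, Real.rpow_neg (by positivity),
    le_div_iff₀ (by positivity), inv_mul_le_iff₀ (by positivity)]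
  have : (p : ℝ) ^ ((3 : ℝ) * r) = ((p : ℝ) ^ r) ^ 3 := by
    rw [← pow_mul, ← Real.rpow_natCast]; congr 1; push_cast; ring
  rw [this, mul_comm]; exact h2

theorem le_arank (A : (Fin 4 → J) → ZMod p) (M : ℕ)
    (h : Zc A * p ^ M ≤ (p ^ Fintype.card J) ^ 3) : (M : ℝ) ≤ arank A := by
  have hp := one_lt_p (p := p)
  have h2 : (Zc A : ℝ) * (p : ℝ) ^ M ≤ ((p : ℝ) ^ Fintype.card J) ^ 3 := by exact_mod_cast h
  unfold arank
  rw [le_neg, Real.logb_le_iff_le_rpow hp (bias_pos A), bias_eq, Real.rpow_neg (by positivity),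
    div_le_iff₀ (by positivity), le_inv_mul_iff₀ (by positivity), Real.rpow_natCast, mul_comm]
  exact h2

theorem hasPR_prank (A : (Fin 4 → J) → ZMod p) : HasPR A (prank A) :=
  Nat.sInf_mem (s := {r | HasPR A r}) ⟨_, hasPR_card A⟩

theorem prank_le_card (A : (Fin 4 → J) → ZMod p) : prank A ≤ Fintype.card J :=
  Nat.sInf_le (s := {r | HasPR A r}) (hasPR_card A)

theorem arank_nonneg (A : (Fin 4 → J) → ZMod p) : 0 ≤ arank A := by
  have := le_arank A 0 (by simpa using Zc_le A)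
  simpa using this

end

theorem exists_h (c : ℝ) (h0 : 0 < c) (h1 : c < 1) :
    ∃ h : ℕ, 1 ≤ h ∧ c ^ (2 * h) * (192 * h) ≤ 1 := by
  have t := tendsto_self_mul_const_pow_of_lt_one h0.le h1
  have e := (t.eventually (gt_mem_nhds (by norm_num : (0 : ℝ) < 1 / 192))).and
    (Filter.eventually_ge_atTop 1)
  obtain ⟨h, hh, hh1⟩ := e.exists
  refine ⟨h, hh1, ?_⟩
  have : c ^ (2 * h) ≤ c ^ h := pow_le_pow_of_le_one h0.le h1.le (by omega)
  have h3 : (0 : ℝ) ≤ h := Nat.cast_nonneg h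
  nlinarith [mul_le_mul_of_nonneg_right this h3]

/-- Neither partition rank nor analytic rank tensorizes: over every prime field there is a
four-dimensional tensor violating the statement for both ranks. -/
theorem result (p : ℕ) [Fact p.Prime] :
    ∃ (n : ℕ) (A : (Fin 4 → Fin n) → ZMod p), 1 ≤ n ∧
      (prank A < prank (idT 4 (Fin n) (ZMod p)) ∧
        ∀ c : ℝ, c < 1 → ∃ m : ℕ, 1 ≤ m ∧
          c ^ m * (prank (tpow (idT 4 (Fin n) (ZMod p)) m) : ℝ) ≤ (prank (tpow A m) : ℝ)) ∧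
      (arank A < arank (idT 4 (Fin n) (ZMod p)) ∧
        ∀ c : ℝ, c < 1 → ∃ m : ℕ, 1 ≤ m ∧
          c ^ m * arank (tpow (idT 4 (Fin n) (ZMod p)) m) ≤ arank (tpow A m)) := by
  obtain ⟨c0, hc0, hid⟩ := Zc_id (F := ZMod p)
  rw [ZMod.card] at hc0
  have hp := one_lt_p (p := p)
  have hp2 : 2 ≤ p := (Fact.out : p.Prime).two_le
  have hlt : (c0 : ℝ) / (p : ℝ) ^ 3 < 1 := by
    rw [div_lt_one (by positivity)]; exact_mod_cast hc0
  obtain ⟨t0, ht0⟩ := exists_pow_lt_of_lt_one (x := 1 / (p : ℝ) ^ 7) (by positivity) hlt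
  set t := t0 + 1 with ht
  let e : Fin (16 * t) ≃ Bool × Fin (8 * t) := Fintype.equivOfCardEq (by simp; ring)
  let A : (Fin 4 → Fin (16 * t)) → ZMod p :=
    fun i => exT (Fin (8 * t)) (ZMod p) (fun j => e (i j))
  let o : Fin (16 * t) := ⟨0, by omega⟩
  have hA2 : HasPR A 2 := exT_hasPR e
  have hid7 : ((7 : ℕ) : ℝ) ≤ arank (idT 4 (Fin (16 * t)) (ZMod p)) := by
    apply le_arank
    rw [hid, Fintype.card_fin]
    have h1 : ((c0 : ℝ) / (p : ℝ) ^ 3) ^ (16 * t) ≤ ((c0 : ℝ) / (p : ℝ) ^ 3) ^ t0 :=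
      pow_le_pow_of_le_one (by positivity) hlt.le (by omega)
    have h2 := h1.trans ht0.le
    rw [div_pow, div_le_div_iff₀ (by positivity) (by positivity), one_mul,
      ← pow_mul (p : ℝ), mul_comm 3, pow_mul (p : ℝ)] at h2
    exact_mod_cast h2
  have big : ∀ h : ℕ, 1 ≤ h →
      ((16 * t : ℕ) : ℝ) ^ (2 * h) ≤ 64 * h * arank (tpow A (2 * h)) := by
    intro h hh
    obtain ⟨h', rfl⟩ : ∃ h', h = h' + 1 := ⟨h - 1, by omega⟩
    set h := h' + 1 with hdef
    set r := 2 * t * (8 * t) ^ h' with hr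
    have hr4 : Fintype.card (Fin (8 * t)) ^ h = 4 * r := by
      rw [Fintype.card_fin, hdef, pow_succ, hr]; ring
    have hr2 : 2 ≤ r := by
      have : 1 ≤ (8 * t) ^ h' := Nat.one_le_pow _ _ (by omega)
      rw [hr]; nlinarith
    have h1 := Zc_pow (F := ZMod p) e h r hr4
    rw [ZMod.card] at h1
    set C := Nat.centralBinom h with hC
    obtain ⟨s, hs⟩ : ∃ s, r * r = s + 2 := ⟨r * r - 2, by have := Nat.mul_le_mul hr2 hr2; omega⟩
    have h2 : ((s * C : ℕ) : ℝ) ≤ arank (tpow A (2 * h)) := by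
      apply le_arank
      have h3 : 3 ^ C ≤ (p ^ 2) ^ C := Nat.pow_le_pow_left (by nlinarith) _
      have h4 := h1.trans (Nat.mul_le_mul_right _ h3)
      rw [hs, pow_add, mul_pow, ← pow_mul, ← mul_assoc, mul_comm ((p ^ 2) ^ C)] at h4
      exact Nat.le_of_mul_le_mul_right h4 (by positivity)
    have h5 := Nat.four_pow_le_two_mul_self_mul_centralBinom h (by omega)
    have h6 : (16 * t) ^ (2 * h) ≤ 64 * h * (s * C) := by
      have e1 : (16 * t) ^ (2 * h) = 4 ^ h * (16 * (r * r)) := by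
        rw [Fintype.card_fin] at hr4
        have : 16 * (r * r) = (8 * t) ^ h * (8 * t) ^ h := by rw [hr4]; ring
        rw [this, ← mul_pow, ← mul_pow, pow_mul]; congr 1; ring
      have e2 : 16 * (r * r) ≤ 32 * s := by have := Nat.mul_le_mul hr2 hr2; omega
      rw [e1]
      calc 4 ^ h * (16 * (r * r)) ≤ (2 * h * C) * (32 * s) := Nat.mul_le_mul h5 e2
        _ = _ := by ring
    have h7 : (((16 * t) ^ (2 * h) : ℕ) : ℝ) ≤ ((64 * h * (s * C) : ℕ) : ℝ) := by
      exact_mod_cast h6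
    have h8 : (0 : ℝ) ≤ 64 * h := by positivity
    have h9 := mul_le_mul_of_nonneg_left h2 h8
    push_cast at h7 h9 ⊢
    linarith
  have idle : ∀ m, (prank (tpow (idT 4 (Fin (16 * t)) (ZMod p)) m) : ℝ) ≤
      ((16 * t : ℕ) : ℝ) ^ m := by
    intro m
    have := prank_le_card (tpow (idT 4 (Fin (16 * t)) (ZMod p)) m)
    rw [Fintype.card_fun, Fintype.card_fin, Fintype.card_fin] at this
    exact_mod_cast this
  have main : ∀ c : ℝ, 0 < c → c < 1 → ∃ m : ℕ, 1 ≤ m ∧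
      c ^ m * (3 * ((16 * t : ℕ) : ℝ) ^ m) ≤ arank (tpow A m) := by
    intro c h0 h1
    obtain ⟨h, hh, hc⟩ := exists_h c h0 h1
    refine ⟨2 * h, by omega, ?_⟩
    have h2 := big h hh
    have h3 := arank_nonneg (tpow A (2 * h))
    have h4 : 0 < c ^ (2 * h) := by positivity
    calc c ^ (2 * h) * (3 * ((16 * t : ℕ) : ℝ) ^ (2 * h))
        ≤ c ^ (2 * h) * (3 * (64 * h * arank (tpow A (2 * h)))) := by gcongr
      _ = (c ^ (2 * h) * (192 * h)) * arank (tpow A (2 * h)) := by ring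
      _ ≤ 1 * arank (tpow A (2 * h)) := by gcongr
      _ = _ := one_mul _
  refine ⟨16 * t, A, by omega, ⟨?_, ?_⟩, ?_, ?_⟩
  · have h1 : prank A ≤ 2 := Nat.sInf_le (s := {r | HasPR A r}) hA2
    have h2 := arank_le o _ _ (hasPR_prank (idT 4 (Fin (16 * t)) (ZMod p)))
    have h3 : ((7 : ℕ) : ℝ) ≤ ((3 * prank (idT 4 (Fin (16 * t)) (ZMod p)) : ℕ) : ℝ) := by
      push_cast at hid7 ⊢; linarith
    have h4 : 7 ≤ 3 * prank (idT 4 (Fin (16 * t)) (ZMod p)) := by exact_mod_cast h3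
    omega
  · intro c hc
    by_cases h0 : 0 < c
    · obtain ⟨m, hm, h⟩ := main c h0 hc
      refine ⟨m, hm, ?_⟩
      have h2 := arank_le (fun _ => o) _ _ (hasPR_prank (tpow A m))
      have h3 := mul_le_mul_of_nonneg_left (idle m) (pow_pos h0 m).le
      linarith
    · refine ⟨1, le_rfl, ?_⟩
      rw [pow_one]
      exact le_trans (mul_nonpos_of_nonpos_of_nonneg (not_lt.1 h0) (Nat.cast_nonneg _))
        (Nat.cast_nonneg _)
  · have h1 := arank_le o A 2 hA2
    push_cast at h1 hid7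
    linarith
  · intro c hc
    by_cases h0 : 0 < c
    · obtain ⟨m, hm, h⟩ := main c h0 hc
      refine ⟨m, hm, le_trans ?_ h⟩
      have h2 := arank_le (fun _ => o) _ _
        (hasPR_prank (tpow (idT 4 (Fin (16 * t)) (ZMod p)) m))
      have h3 := idle m
      apply mul_le_mul_of_nonneg_left _ (pow_pos h0 m).le
      linarith
    · refine ⟨1, le_rfl, ?_⟩
      rw [pow_one]
      exact le_trans (mul_nonpos_of_nonpos_of_nonneg (not_lt.1 h0) (arank_nonneg _))
        (arank_nonneg _)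

end Pool.Agent.Results.MP_a9d09b_co.NoTensorize
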